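import Pool.Agent.Helper97.Fuchs.Base

/-!
# FU-L1: lifting from `PSL(2,ℝ)` to `SL(2,ℝ)`
-/

namespace Pool.Agent.Helper97.Fuchs.H30

open MeasureTheory Matrix UpperHalfPlane Filter Topology
open scoped MatrixGroups ENNReal BigOperators

noncomputable section

set_option linter.unusedSectionVars false
set_option linter.unusedVariables false

variable {ι : Type} [Fintype ι]

lemma mem_center_iff' {g : SL(2, ℝ)} : g ∈ Subgroup.center SL(2, ℝ) ↔ g = 1 ∨ g = -1 := by
  rw [Matrix.SpecialLinearGroup.mem_center_iff]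
  constructor
  · rintro ⟨r, hr, hg⟩
    simp only [Fintype.card_fin] at hr
    have hr' : (r - 1) * (r + 1) = 0 := by linear_combination hr
    rcases mul_eq_zero.1 hr' with h | h
    · obtain rfl : r = 1 := by linarith
      left
      apply Subtype.ext
      rw [← hg]
      simp
    · obtain rfl : r = -1 := by linarith
      right
      apply Subtype.ext
      rw [← hg]
      ext i j
      fin_cases i <;> fin_cases j <;> simp
  · rintro (rfl | rfl)
    · exact ⟨1, by simp, by simp⟩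
    · exact ⟨-1, by simp, by ext i j; fin_cases i <;> fin_cases j <;> simp⟩

theorem comap_closure (A : ι → SL(2, ℝ)) :
    (Subgroup.closure (Set.range fun i => (QuotientGroup.mk (A i) : PSL(2, ℝ)))).comap
      (QuotientGroup.mk' (Subgroup.center SL(2, ℝ))) = grp A := by
  have h1 : (Set.range fun i => (QuotientGroup.mk (A i) : PSL(2, ℝ))) =
      QuotientGroup.mk' (Subgroup.center SL(2, ℝ)) '' Set.range A := by
    rw [← Set.range_comp]
    rfl
  rw [h1, ← MonoidHom.map_closure, Subgroup.comap_map_eq, QuotientGroup.ker_mk']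
  have h2 : Subgroup.center SL(2, ℝ) = Subgroup.closure {-1} := by
    apply le_antisymm
    · intro g hg
      rcases mem_center_iff'.1 hg with rfl | rfl
      · exact one_mem _
      · exact Subgroup.subset_closure rfl
    · rw [Subgroup.closure_le]
      rintro g hg
      rw [Set.mem_singleton_iff] at hg
      exact mem_center_iff'.2 (Or.inr hg)
  rw [h2, ← Subgroup.closure_union]
  rfl

/-! ### small neighbourhoods -/

lemma continuous_entry (i j : Fin 2) : Continuous fun g : SL(2, ℝ) => g i j := by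
  have h1 : Continuous (fun p : SL(2, ℝ) => p i) := by fun_prop
  exact (continuous_apply j).comp h1

lemma d1_one : d1 1 = 0 := by simp [d1]

lemma d1_nonneg (g : SL(2, ℝ)) : 0 ≤ d1 g := Real.sqrt_nonneg _

lemma continuous_d1 : Continuous d1 := by
  unfold d1
  have h := continuous_entry
  exact (((((h 0 0).sub continuous_const).pow 2).add ((h 0 1).pow 2)).add
    ((h 1 0).pow 2)).add (((h 1 1).sub continuous_const).pow 2) |>.sqrt

lemma entry_le_d1 (g : SL(2, ℝ)) (i j : Fin 2) : |g i j - (1 : SL(2, ℝ)) i j| ≤ d1 g := by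
  unfold d1
  apply Real.abs_le_sqrt
  fin_cases i <;> fin_cases j <;> simp <;> nlinarith [sq_nonneg (g 0 0 - 1), sq_nonneg (g 0 1),
    sq_nonneg (g 1 0), sq_nonneg (g 1 1 - 1)]

/-- convergence to `1` is convergence of `d1` to `0` -/
lemma tendsto_one_of_d1 {α : Type} {l : Filter α} {g : α → SL(2, ℝ)}
    (h : Tendsto (fun n => d1 (g n)) l (𝓝 0)) : Tendsto g l (𝓝 1) := by
  refine (Matrix.SpecialLinearGroup.isClosedEmbedding_val.isInducing.tendsto_nhds_iff).2 ?_
  refine tendsto_pi_nhds.2 fun i => tendsto_pi_nhds.2 fun j => ?_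
  rw [tendsto_iff_norm_sub_tendsto_zero]
  refine squeeze_zero (fun n => norm_nonneg _) (fun n => ?_) h
  exact entry_le_d1 (g n) i j

lemma image_mk_mem_nhds {U : Set SL(2, ℝ)} (hU : U ∈ 𝓝 (1 : SL(2, ℝ))) :
    (QuotientGroup.mk '' U : Set PSL(2, ℝ)) ∈ 𝓝 (1 : PSL(2, ℝ)) := by
  have := (QuotientGroup.isOpenMap_coe (N := Subgroup.center SL(2, ℝ))).image_mem_nhds hU
  exact this

/-- candidates for the small correction -/
def cand (S : Finset PSL(2, ℝ)) (a : SL(2, ℝ)) : Set SL(2, ℝ) :=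
  {g | (QuotientGroup.mk (a * g) : PSL(2, ℝ)) ∈ S}

lemma mem_cand {S : Finset PSL(2, ℝ)} {a g : SL(2, ℝ)} :
    g ∈ cand S a ↔ (QuotientGroup.mk (a * g) : PSL(2, ℝ)) ∈ S := Iff.rfl

/-- an almost optimal small correction -/
lemma exists_corr (S : Finset PSL(2, ℝ)) (a : SL(2, ℝ)) (n : ℕ) :
    ∃ g : SL(2, ℝ), ∀ h ∈ cand S a, g ∈ cand S a ∧ d1 g ≤ d1 h + 1 / ((n : ℝ) + 1) := by
  by_cases hne : (cand S a).Nonempty
  · have hb : BddBelow (d1 '' cand S a) := ⟨0, by rintro _ ⟨g, _, rfl⟩; exact d1_nonneg g⟩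
    have h1 : sInf (d1 '' cand S a) < sInf (d1 '' cand S a) + 1 / ((n : ℝ) + 1) := by
      have : 0 < 1 / ((n : ℝ) + 1) := by positivity
      linarith
    obtain ⟨_, ⟨g, hg, rfl⟩, hg'⟩ := exists_lt_of_csInf_lt (hne.image d1) h1
    refine ⟨g, fun h hh => ⟨hg, ?_⟩⟩
    have := csInf_le hb ⟨h, hh, rfl⟩
    linarith
  · exact ⟨1, fun h hh => absurd ⟨h, hh⟩ hne⟩

lemma continuous_quot : Continuous fun p : SL(2, ℝ) × SL(2, ℝ) => d1 (p.1⁻¹ * p.2) :=
  continuous_d1.comp ((continuous_fst.inv).mul continuous_snd)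

lemma exists_small {ε : ℝ} (hε : 0 < ε) :
    ∃ U ∈ 𝓝 (1 : SL(2, ℝ)), ∀ g ∈ U, ∀ h ∈ U, d1 (g⁻¹ * h) < ε := by
  have h0 : d1 ((1 : SL(2, ℝ))⁻¹ * 1) < ε := by
    rw [inv_one, one_mul, d1_one]
    exact hε
  have h1 : ∀ᶠ p in 𝓝 ((1 : SL(2, ℝ)), (1 : SL(2, ℝ))), d1 (p.1⁻¹ * p.2) < ε := by
    exact (continuous_quot.tendsto ((1 : SL(2, ℝ)), (1 : SL(2, ℝ)))).eventually_lt_const h0
  obtain ⟨u, hu, v, hv, huv⟩ := mem_nhds_prod_iff.1 h1
  refine ⟨u ∩ v, inter_mem hu hv, ?_⟩
  intro g hg h hh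
  have h2 : ((g, h) : SL(2, ℝ) × SL(2, ℝ)) ∈ u ×ˢ v := Set.mk_mem_prod hg.1 hh.2
  have h3 := huv h2
  rw [Set.mem_ofPred_eq] at h3
  exact h3

theorem exists_lift {Γ : ℕ → Subgroup PSL(2, ℝ)} {S : ℕ → Finset PSL(2, ℝ)}
    {S' : Finset PSL(2, ℝ)} (hS : ∀ n, Subgroup.closure (S n : Set PSL(2, ℝ)) = Γ n)
    (hconv : HausdorffTendsto S S') {ε : ℝ}
    (hd : ∀ᶠ n in atTop, Disc ε ((Γ n).comap (QuotientGroup.mk' (Subgroup.center SL(2, ℝ))))) :
    ∃ (A : S' → SL(2, ℝ)) (An : ℕ → S' → SL(2, ℝ)),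
      (∀ i, (QuotientGroup.mk (A i) : PSL(2, ℝ)) = i) ∧
      (∀ i, Tendsto (fun n => An n i) atTop (𝓝 (A i))) ∧
      ∀ᶠ n in atTop, (Function.Injective fun i => (QuotientGroup.mk (An n i) : PSL(2, ℝ))) ∧
        (Set.range fun i => (QuotientGroup.mk (An n i) : PSL(2, ℝ))) = (S n : Set PSL(2, ℝ)) := by
  classical
  choose A hA using fun i : S' => QuotientGroup.mk_surjective (s := Subgroup.center SL(2, ℝ))
    (i : PSL(2, ℝ))
  choose G hG using fun (n : ℕ) (i : S') => exists_corr (S n) (A i) n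
  have hε : 0 < ε := by
    obtain ⟨n, hn⟩ := hd.exists
    exact hn.1
  -- for every radius there is eventually a candidate of that size
  have hcand : ∀ U ∈ 𝓝 (1 : SL(2, ℝ)), ∀ᶠ n in atTop,
      (∀ s ∈ S n, ∃ i : S', ∃ g ∈ U, s = QuotientGroup.mk (A i * g)) ∧
      (∀ i : S', ∃ g ∈ U, g ∈ cand (S n) (A i)) := by
    intro U hU
    filter_upwards [hconv _ (image_mk_mem_nhds hU)] with n hn
    refine ⟨fun s hs => ?_, fun i => ?_⟩
    · obtain ⟨t, ht, g, hg, hgt⟩ := hn.1 s hs
      refine ⟨⟨t, ht⟩, g, hg, ?_⟩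
      rw [QuotientGroup.mk_mul, hA ⟨t, ht⟩, hgt]
      simp
    · obtain ⟨s, hs, g, hg, hgs⟩ := hn.2 i i.2
      refine ⟨g, hg, ?_⟩
      rw [mem_cand, QuotientGroup.mk_mul, hA i, hgs]
      simpa using hs
  have hGmem : ∀ᶠ n in atTop, ∀ i : S', G n i ∈ cand (S n) (A i) := by
    filter_upwards [hcand Set.univ univ_mem] with n hn i
    obtain ⟨g, _, hg⟩ := hn.2 i
    exact (hG n i g hg).1
  have hGd : ∀ i : S', Tendsto (fun n => d1 (G n i)) atTop (𝓝 0) := by
    intro i
    rw [Metric.tendsto_atTop']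
    intro r hr
    have hU : {g : SL(2, ℝ) | d1 g < r / 2} ∈ 𝓝 (1 : SL(2, ℝ)) := by
      apply (isOpen_lt continuous_d1 continuous_const).mem_nhds
      change d1 1 < r / 2
      rw [d1_one]
      linarith
    have h1 : ∀ᶠ n : ℕ in atTop, 1 / ((n : ℝ) + 1) < r / 2 :=
      (tendsto_one_div_add_atTop_nhds_zero_nat).eventually (gt_mem_nhds (by linarith))
    obtain ⟨n₀, hn₀⟩ := (h1.and (hcand _ hU)).exists_forall_of_atTop
    refine ⟨n₀, fun n hn => ?_⟩
    obtain ⟨h2, h3⟩ := hn₀ n hn.le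
    obtain ⟨g, hg, hg'⟩ := h3.2 i
    have h4 := (hG n i g hg').2
    change d1 g < r / 2 at hg
    rw [Real.dist_eq, sub_zero, abs_of_nonneg (d1_nonneg _)]
    linarith
  have hG1 : ∀ i : S', Tendsto (fun n => G n i) atTop (𝓝 1) := fun i => tendsto_one_of_d1 (hGd i)
  refine ⟨A, fun n i => A i * G n i, hA, fun i => ?_, ?_⟩
  · have := (tendsto_const_nhds (x := A i)).mul (hG1 i)
    rwa [mul_one] at this
  · -- a neighbourhood of `1` with small quotients
    obtain ⟨U, hU, hUq⟩ := exists_small hε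
    have hGU : ∀ᶠ n in atTop, ∀ i : S', G n i ∈ U :=
      eventually_all.2 fun i => (hG1 i).eventually hU
    -- distinct limits
    have hinj : ∀ᶠ n in atTop, ∀ i j : S', i ≠ j →
        (QuotientGroup.mk (A i * G n i) : PSL(2, ℝ)) ≠ QuotientGroup.mk (A j * G n j) := by
      refine eventually_all.2 fun i => eventually_all.2 fun j => ?_
      by_cases hij : i = j
      · exact Eventually.of_forall fun n h => absurd hij h
      have hlim : Tendsto (fun n => (A i * G n i)⁻¹ * (A j * G n j)) atTop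
          (𝓝 ((A i)⁻¹ * A j)) := by
        have h1 := (tendsto_const_nhds (x := A i)).mul (hG1 i)
        have h2 := (tendsto_const_nhds (x := A j)).mul (hG1 j)
        rw [mul_one] at h1 h2
        exact h1.inv.mul h2
      have hnc : (A i)⁻¹ * A j ∉ Subgroup.center SL(2, ℝ) := by
        intro h
        apply hij
        apply Subtype.ext
        rw [← hA i, ← hA j]
        exact QuotientGroup.eq.2 h
      have hopen : ∀ᶠ n in atTop, (A i * G n i)⁻¹ * (A j * G n j) ∉
          Subgroup.center SL(2, ℝ) := by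
        rw [mem_center_iff', not_or] at hnc
        filter_upwards [hlim.eventually_ne hnc.1, hlim.eventually_ne hnc.2] with n h1 h2
        rw [mem_center_iff', not_or]
        exact ⟨h1, h2⟩
      filter_upwards [hopen] with n hn _ h
      exact hn (QuotientGroup.eq.1 h)
    filter_upwards [hcand U hU, hGU, hGmem, hinj, hd] with n h1 h2 h3 h4 h5
    refine ⟨fun i j hij => ?_, ?_⟩
    · by_contra hne
      exact h4 i j hne hij
    · apply Set.Subset.antisymm
      · rintro _ ⟨i, rfl⟩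
        exact h3 i
      · intro s hs
        obtain ⟨i, g, hg, rfl⟩ := h1.1 s hs
        refine ⟨i, ?_⟩
        have h6 : g⁻¹ * G n i ∈ (Γ n).comap (QuotientGroup.mk' (Subgroup.center SL(2, ℝ))) := by
          have e1 : (QuotientGroup.mk' (Subgroup.center SL(2, ℝ))) (g⁻¹ * G n i) =
              (QuotientGroup.mk (A i * g) : PSL(2, ℝ))⁻¹ * QuotientGroup.mk (A i * G n i) := by
            rw [← QuotientGroup.mk_inv, ← QuotientGroup.mk_mul]
            change (QuotientGroup.mk _ : PSL(2, ℝ)) = QuotientGroup.mk _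
            congr 1
            group
          rw [Subgroup.mem_comap, e1, ← hS n]
          exact mul_mem (inv_mem (Subgroup.subset_closure hs)) (Subgroup.subset_closure (h3 i))
        have h7 := h5.2 _ h6 fun k l => (entry_le_d1 _ k l).trans_lt (hUq g hg _ (h2 i))
        have h8 : G n i = g := (inv_mul_eq_one.1 h7).symm
        simp only [h8]

end

end Pool.Agent.Helper97.Fuchs.H30
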